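import Mathlib
import Pool.Agent.GCN.Main

/-!
Lower bounds for the counting functions of the generalized Carmichael numbers `N_k`, for all integers `k`.
-/

set_option autoImplicit false

namespace Pool.Agent.Results.MP_a171f4_nt.LowerBounds

/-- The set `C_k` of the integers `n > max(k, 0)` with `a ^ (n - k + 1) ≡ a` modulo `n` for all
integers `a`. -/
def C (k : ℤ) : Set ℤ :=
  {n | max k 0 < n ∧ ∀ a : ℤ, a ^ (n - k + 1).toNat ≡ a [ZMOD n]}

/-- The Carmichael function: the exponent of the group `(ℤ / m ℤ)ˣ`, that is, the largest order of an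
element. -/
noncomputable def lam (m : ℕ) : ℕ := Monoid.exponent (ZMod m)ˣ

open scoped Classical in
/-- The set `N_k` of the generalized Carmichael numbers: for squarefree `k > 0` the numbers `k p`, `p` a
prime with `p ≡ 1` modulo `λ(k) / gcd(λ(k), k)`, are removed from `C_k`; for all other integers `k` it is
`C_k`. -/
noncomputable def N (k : ℤ) : Set ℤ :=
  if 0 < k ∧ Squarefree k then
    C k \ {n | ∃ p : ℕ, p.Prime ∧
      p ≡ 1 [MOD lam k.natAbs / Nat.gcd (lam k.natAbs) k.natAbs] ∧ n = k * p}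
  else C k

/-- The counting function `N_k(X)`. -/
noncomputable def count (k : ℤ) (X : ℝ) : ℕ := {n : ℤ | n ∈ N k ∧ 0 < n ∧ (n : ℝ) ≤ X}.ncard

/-- * For every integer `k ≠ 0` there is a `c > 0` with `N_k(X) ≥ X ^ c` for all large `X`.
* For every integer `k ≠ 0` there are arbitrarily large `X` with `N_k(X) ≥ X ^ (1 / 2)`.
* For every integer `k`, `N_k(X) > 0` for all large `X`. -/
theorem result :
    (∀ k : ℤ, k ≠ 0 → ∃ c X₀ : ℝ, 0 < c ∧ ∀ X : ℝ, X₀ ≤ X → X ^ c ≤ count k X) ∧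
    (∀ k : ℤ, k ≠ 0 → ∀ X₀ : ℝ, ∃ X : ℝ, X₀ ≤ X ∧ X ^ (1 / 2 : ℝ) ≤ count k X) ∧
    (∀ k : ℤ, ∃ X₀ : ℝ, ∀ X : ℝ, X₀ ≤ X → 0 < count k X) := by
  have hN : ∀ k : ℤ, N k = GCN.Nset k := fun k => rfl
  have hc : ∀ (k : ℤ) (X : ℝ), count k X = GCN.Ncount k X := fun k X => rfl
  have h1 : ∀ k : ℤ, k ≠ 0 → ∃ c X₀ : ℝ, 0 < c ∧ ∀ X : ℝ, X₀ ≤ X → X ^ c ≤ count k X := by
    intro k hk
    obtain ⟨c, X₀, hc0, h⟩ := GCN.large_all k hk
    exact ⟨c, X₀, hc0, h⟩
  refine ⟨h1, fun k hk X₀ => GCN.large_count k hk X₀, fun k => ?_⟩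
  rcases eq_or_ne k 0 with rfl | hk
  · refine ⟨1, fun X hX => ?_⟩
    rw [hc]
    unfold GCN.Ncount
    rw [Set.ncard_pos (GCN.h7_finite 0 X)]
    refine ⟨1, ?_, one_pos, by simpa using hX⟩
    unfold GCN.Nset
    rw [if_neg (by simp)]
    refine ⟨by simp, fun a => ?_⟩
    exact Int.modEq_one
  · obtain ⟨c, X₀, hc0, h⟩ := h1 k hk
    refine ⟨max X₀ 1, fun X hX => ?_⟩
    have h2 : X ^ c ≤ count k X := h X ((le_max_left _ _).trans hX)
    have h3 : (0 : ℝ) < X ^ c := Real.rpow_pos_of_pos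
      (lt_of_lt_of_le one_pos ((le_max_right _ _).trans hX)) c
    exact_mod_cast h3.trans_le h2

end Pool.Agent.Results.MP_a171f4_nt.LowerBounds
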